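import Pool.Agent.Y272.LC.Stm2

set_option autoImplicit false

/-! # Good times exist in all windows -/

namespace Pool.Agent.Y488.LC.Good

open MeasureTheory Set Filter Topology
open scoped ENNReal

/-! ### periodic sets -/

theorem per_vol {P : Set ℝ} (hper : ∀ (x : ℝ) (i : ℤ), x + i ∈ P ↔ x ∈ P) (p s : ℕ)
    (hp : 1 ≤ p) (hs : s ≤ p) :
    volume {x : ℝ | (s : ℝ) / p ≤ x ∧ x < 1 ∧ (p : ℝ) * x ∈ P} ≤
      ENNReal.ofReal (((p : ℝ) - s) / p) * volume (P ∩ Ico 0 1) := by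
  have hp0 : (0 : ℝ) < p := by exact_mod_cast hp
  have h1 : {x : ℝ | (s : ℝ) / p ≤ x ∧ x < 1 ∧ (p : ℝ) * x ∈ P} =
      (fun x => (p : ℝ) * x) ⁻¹' (P ∩ Ico (s : ℝ) p) := by
    ext x
    simp only [mem_preimage, mem_inter_iff, mem_Ico, mem_ofPred_eq]
    rw [div_le_iff₀ hp0, mul_comm x]
    constructor
    · rintro ⟨h1, h2, h3⟩
      exact ⟨h3, h1, by nlinarith⟩
    · rintro ⟨h3, h1, h2⟩
      refine ⟨h1, ?_, h3⟩
      by_contra h4
      rw [not_lt] at h4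
      nlinarith
  rw [h1, Real.volume_preimage_mul_left hp0.ne']
  have h2 : volume (P ∩ Ico (s : ℝ) p) ≤ ((p - s : ℕ) : ℝ≥0∞) * volume (P ∩ Ico 0 1) := by
    have hsub : P ∩ Ico (s : ℝ) p ⊆ ⋃ i ∈ Finset.range (p - s),
        (fun x : ℝ => x + (-((s : ℝ) + i))) ⁻¹' (P ∩ Ico 0 1) := by
      rintro x ⟨hxP, hx1, hx2⟩
      have h3 : (s : ℤ) ≤ ⌊x⌋ := Int.le_floor.mpr (by exact_mod_cast hx1)
      have h4 : ⌊x⌋ < (p : ℤ) := Int.floor_lt.mpr (by exact_mod_cast hx2)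
      have h5 : ((⌊x⌋ - s).toNat : ℤ) = ⌊x⌋ - s := Int.toNat_of_nonneg (by omega)
      have h6 : (((⌊x⌋ - s).toNat : ℕ) : ℝ) = (⌊x⌋ : ℝ) - s := by exact_mod_cast h5
      rw [mem_iUnion₂]
      refine ⟨(⌊x⌋ - s).toNat, ?_, ?_⟩
      · rw [Finset.mem_range]
        omega
      · show x + (-((s : ℝ) + ((⌊x⌋ - s).toNat : ℕ))) ∈ P ∩ Ico 0 1
        have h7 : x + (-((s : ℝ) + ((⌊x⌋ - s).toNat : ℕ))) = x + ((-⌊x⌋ : ℤ) : ℝ) := by
          rw [h6]; push_cast; ring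
        rw [h7]
        refine ⟨(hper x _).mpr hxP, ?_⟩
        push_cast
        constructor
        · have := Int.floor_le x
          linarith
        · have := Int.lt_floor_add_one x
          linarith
    calc volume (P ∩ Ico (s : ℝ) p)
        ≤ volume (⋃ i ∈ Finset.range (p - s),
          (fun x : ℝ => x + (-((s : ℝ) + i))) ⁻¹' (P ∩ Ico 0 1)) := measure_mono hsub
      _ ≤ ∑ i ∈ Finset.range (p - s),
          volume ((fun x : ℝ => x + (-((s : ℝ) + i))) ⁻¹' (P ∩ Ico 0 1)) :=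
          measure_biUnion_finset_le _ _
      _ = ∑ i ∈ Finset.range (p - s), volume (P ∩ Ico 0 1) := by
          refine Finset.sum_congr rfl fun i _ => ?_
          rw [measure_preimage_add_right]
      _ = ((p - s : ℕ) : ℝ≥0∞) * volume (P ∩ Ico 0 1) := by
          rw [Finset.sum_const, Finset.card_range, nsmul_eq_mul]
  calc ENNReal.ofReal |(p : ℝ)⁻¹| * volume (P ∩ Ico (s : ℝ) p)
      ≤ ENNReal.ofReal |(p : ℝ)⁻¹| * (((p - s : ℕ) : ℝ≥0∞) * volume (P ∩ Ico 0 1)) := by gcongr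
    _ = ENNReal.ofReal (((p : ℝ) - s) / p) * volume (P ∩ Ico 0 1) := by
        rw [← mul_assoc]
        congr 1
        rw [← ENNReal.ofReal_natCast, ← ENNReal.ofReal_mul (abs_nonneg _), Nat.cast_sub hs,
          abs_of_pos (by positivity)]
        congr 1
        ring

/-- no block of zeros among the first `K` -/
def PK (q K : ℕ) : Set ℝ := {x | ∀ j < K, 1 / (q : ℝ) ≤ Int.fract ((q : ℝ) ^ j * x)}

theorem PK_per (q K : ℕ) (x : ℝ) (i : ℤ) : x + i ∈ PK q K ↔ x ∈ PK q K := by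
  have h : ∀ j : ℕ, Int.fract ((q : ℝ) ^ j * (x + i)) = Int.fract ((q : ℝ) ^ j * x) := by
    intro j
    have : (q : ℝ) ^ j * (x + i) = (q : ℝ) ^ j * x + (((q : ℤ) ^ j * i : ℤ) : ℝ) := by
      push_cast; ring
    rw [this, Int.fract_add_intCast]
  simp only [PK, mem_ofPred_eq, h]

theorem PK_vol (q : ℕ) (hq : 1 ≤ q) (K : ℕ) :
    volume (PK q K ∩ Ico 0 1) ≤ ENNReal.ofReal ((1 - 1 / (q : ℝ)) ^ K) := by
  have hq0 : (0 : ℝ) < q := by exact_mod_cast hq
  have hq1 : (1 : ℝ) ≤ q := by exact_mod_cast hq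
  have h0 : 0 ≤ 1 - 1 / (q : ℝ) := by
    rw [sub_nonneg, div_le_one hq0]
    exact hq1
  induction K with
  | zero =>
    refine (measure_mono inter_subset_right).trans ?_
    rw [Real.volume_Ico, pow_zero]
    simp
  | succ K ih =>
    have hsub : PK q (K + 1) ∩ Ico 0 1 ⊆
        {x : ℝ | ((1 : ℕ) : ℝ) / q ≤ x ∧ x < 1 ∧ (q : ℝ) * x ∈ PK q K} := by
      rintro x ⟨hx, hx0, hx1⟩
      refine ⟨?_, hx1, fun j hj => ?_⟩
      · have h1 := hx 0 (Nat.succ_pos K)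
        rw [pow_zero, one_mul, Int.fract_eq_self.mpr ⟨hx0, hx1⟩] at h1
        exact_mod_cast h1
      · have h1 := hx (j + 1) (Nat.succ_lt_succ hj)
        rw [pow_succ, mul_assoc] at h1
        exact h1
    calc volume (PK q (K + 1) ∩ Ico 0 1)
        ≤ volume {x : ℝ | ((1 : ℕ) : ℝ) / q ≤ x ∧ x < 1 ∧ (q : ℝ) * x ∈ PK q K} :=
          measure_mono hsub
      _ ≤ ENNReal.ofReal (((q : ℝ) - (1 : ℕ)) / q) * volume (PK q K ∩ Ico 0 1) :=
          per_vol (PK_per q K) q 1 hq hq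
      _ ≤ ENNReal.ofReal (((q : ℝ) - (1 : ℕ)) / q) * ENNReal.ofReal ((1 - 1 / (q : ℝ)) ^ K) := by
          gcongr
      _ = ENNReal.ofReal ((1 - 1 / (q : ℝ)) ^ (K + 1)) := by
          have h1 : ((q : ℝ) - (1 : ℕ)) / q = 1 - 1 / (q : ℝ) := by
            push_cast
            field_simp
          rw [h1, ← ENNReal.ofReal_mul h0, pow_succ, mul_comm]

/-- the points close to the integers -/
def Pd (ε : ℝ) : Set ℝ := {y | ∃ m : ℤ, |y - m| < ε}

theorem Pd_per (ε : ℝ) (x : ℝ) (i : ℤ) : x + i ∈ Pd ε ↔ x ∈ Pd ε := by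
  constructor
  · rintro ⟨m, hm⟩
    refine ⟨m - i, ?_⟩
    have : x - ((m - i : ℤ) : ℝ) = x + i - m := by push_cast; ring
    rwa [this]
  · rintro ⟨m, hm⟩
    refine ⟨m + i, ?_⟩
    have : x + i - ((m + i : ℤ) : ℝ) = x - m := by push_cast; ring
    rwa [this]

theorem Pd_vol (ε : ℝ) (hε : 0 ≤ ε) : volume (Pd ε ∩ Ico 0 1) ≤ ENNReal.ofReal (2 * ε) := by
  have hsub : Pd ε ∩ Ico 0 1 ⊆ Ico 0 ε ∪ Ioo (1 - ε) 1 := by
    rintro y ⟨⟨m, hm⟩, hy0, hy1⟩
    rw [abs_lt] at hm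
    rcases le_or_gt m 0 with h | h
    · left
      have h1 : (m : ℝ) ≤ 0 := by exact_mod_cast h
      exact ⟨hy0, by linarith [hm.2]⟩
    · right
      have h1 : (1 : ℝ) ≤ m := by exact_mod_cast h
      exact ⟨by linarith [hm.1], hy1⟩
  calc volume (Pd ε ∩ Ico 0 1) ≤ volume (Ico 0 ε ∪ Ioo (1 - ε) 1) := measure_mono hsub
    _ ≤ volume (Ico 0 ε) + volume (Ioo (1 - ε) 1) := measure_union_le _ _
    _ = ENNReal.ofReal ε + ENNReal.ofReal ε := by
        rw [Real.volume_Ico, Real.volume_Ioo, sub_zero, sub_sub_cancel]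
    _ = ENNReal.ofReal (2 * ε) := by
        rw [← ENNReal.ofReal_add hε hε, two_mul]

theorem ae_irr : ∀ᵐ x : ℝ, Irrational x :=
  (Set.countable_range ((↑) : ℚ → ℝ)).ae_notMem volume

theorem min_pos (f : ℕ → ℝ) (J : ℕ) (hf : ∀ j, 1 ≤ j → 0 < f j) :
    ∃ c : ℝ, 0 < c ∧ c ≤ 1 ∧ ∀ j < J, 1 ≤ j → c ≤ f j := by
  induction J with
  | zero => exact ⟨1, one_pos, le_rfl, fun j hj => absurd hj (Nat.not_lt_zero j)⟩
  | succ J ih =>
    obtain ⟨c, hc, hc1, h⟩ := ih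
    rcases Nat.eq_zero_or_pos J with h0 | h0
    · refine ⟨c, hc, hc1, fun j hj hj1 => ?_⟩
      omega
    · refine ⟨min c (f J), lt_min hc (hf J h0), (min_le_left _ _).trans hc1, fun j hj hj1 => ?_⟩
      rcases Nat.lt_succ_iff_lt_or_eq.mp hj with h1 | h1
      · exact (min_le_left _ _).trans (h j h1 hj1)
      · rw [h1]
        exact min_le_right _ _

theorem bc_dist (p : ℕ → ℕ) (hp : ∀ j, 1 ≤ j → 1 ≤ p j) :
    ∀ᵐ x : ℝ, x ∈ Ico (0 : ℝ) 1 → ∃ c : ℝ, 0 < c ∧ ∀ j : ℕ, 1 ≤ j → ∀ m : ℤ,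
      c / (j : ℝ) ^ 2 ≤ |(p j : ℝ) * x - m| := by
  let s : ℕ → Set ℝ := fun j => {x | 1 ≤ j ∧ 0 ≤ x ∧ x < 1 ∧ (p j : ℝ) * x ∈ Pd (1 / (j : ℝ) ^ 2)}
  have hs : ∀ j, volume (s j) ≤ ENNReal.ofReal (2 * (1 / (j : ℝ) ^ 2)) := by
    intro j
    rcases Nat.eq_zero_or_pos j with h0 | h0
    · have : s j = ∅ := by
        ext x
        simp only [s, mem_ofPred_eq, mem_empty_iff_false, iff_false, not_and]
        intro h1
        omega
      rw [this, measure_empty]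
      exact zero_le
    · have hj := hp j h0
      have hsub : s j ⊆ {x : ℝ | ((0 : ℕ) : ℝ) / (p j : ℕ) ≤ x ∧ x < 1 ∧
          ((p j : ℕ) : ℝ) * x ∈ Pd (1 / (j : ℝ) ^ 2)} := by
        rintro x ⟨_, h1, h2, h3⟩
        refine ⟨?_, h2, h3⟩
        rw [Nat.cast_zero, zero_div]
        exact h1
      calc volume (s j) ≤ _ := measure_mono hsub
        _ ≤ ENNReal.ofReal ((((p j : ℕ) : ℝ) - (0 : ℕ)) / (p j : ℕ)) *
            volume (Pd (1 / (j : ℝ) ^ 2) ∩ Ico 0 1) := per_vol (Pd_per _) (p j) 0 hj (Nat.zero_le _)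
        _ ≤ 1 * ENNReal.ofReal (2 * (1 / (j : ℝ) ^ 2)) := by
            gcongr
            · rw [Nat.cast_zero, sub_zero, div_self (by exact_mod_cast (by omega : p j ≠ 0)),
                ENNReal.ofReal_one]
            · exact Pd_vol _ (by positivity)
        _ = _ := one_mul _
  have hsum : (∑' j, volume (s j)) ≠ ∞ := by
    refine ne_top_of_le_ne_top ?_ (ENNReal.tsum_le_tsum hs)
    exact ((Real.summable_one_div_nat_pow.mpr one_lt_two).mul_left 2).tsum_ofReal_ne_top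
  filter_upwards [ae_eventually_notMem hsum, ae_irr] with x hx hirr hx01
  obtain ⟨J, hJ⟩ := eventually_atTop.mp hx
  have hf : ∀ j, 1 ≤ j → 0 < |(p j : ℝ) * x - round ((p j : ℝ) * x)| := by
    intro j hj
    rw [abs_pos, sub_ne_zero]
    have h1 : Irrational ((p j : ℝ) * x) := by
      have h2 := hp j hj
      exact_mod_cast hirr.natCast_mul (by omega : p j ≠ 0)
    exact h1.ne_int _
  obtain ⟨c, hc, hc1, hcJ⟩ := min_pos _ J hf
  refine ⟨c, hc, fun j hj m => ?_⟩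
  have hj0 : (1 : ℝ) ≤ j := by exact_mod_cast hj
  have hj2 : (1 : ℝ) ≤ (j : ℝ) ^ 2 := one_le_pow₀ hj0
  rcases lt_or_ge j J with h | h
  · calc c / (j : ℝ) ^ 2 ≤ c := div_le_self hc.le hj2
      _ ≤ _ := hcJ j h hj
      _ ≤ _ := round_le _ _
  · have h1 := hJ j h
    by_contra h2
    rw [not_le] at h2
    apply h1
    refine ⟨hj, hx01.1, hx01.2, m, h2.trans_le ?_⟩
    exact div_le_div_of_nonneg_right hc1 (by positivity)

/-! ### blocks of zeros -/

/-- the length of the block of zeros -/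
noncomputable def rN (d N : ℕ) : ℕ := Nat.log d ⌊(Real.log N) ^ 3⌋₊ + 1

theorem rN_bd {d N : ℕ} (hd : 2 ≤ d) (hN : 1 ≤ Real.log N) :
    (Real.log N) ^ 3 < (d : ℝ) ^ rN d N ∧ (d : ℝ) ^ rN d N ≤ d * (Real.log N) ^ 3 := by
  set t : ℕ := ⌊(Real.log N) ^ 3⌋₊ with ht
  have h3 : (1 : ℝ) ≤ (Real.log N) ^ 3 := one_le_pow₀ hN
  have ht1 : 1 ≤ t := Nat.le_floor (by exact_mod_cast h3)
  have htle : (t : ℝ) ≤ (Real.log N) ^ 3 := Nat.floor_le (by positivity)
  have hlt : (Real.log N) ^ 3 < t + 1 := Nat.lt_floor_add_one _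
  have h1 : t < d ^ rN d N := Nat.lt_pow_succ_log_self (by omega) t
  have h2 : d ^ Nat.log d t ≤ t := Nat.pow_log_le_self d (by omega)
  constructor
  · have : ((t + 1 : ℕ) : ℝ) ≤ ((d ^ rN d N : ℕ) : ℝ) := by exact_mod_cast h1
    push_cast at this
    linarith
  · have h4 : d ^ rN d N ≤ d * t := by
      unfold rN
      rw [pow_succ, mul_comm]
      exact Nat.mul_le_mul_left d h2
    have h5 : ((d ^ rN d N : ℕ) : ℝ) ≤ ((d * t : ℕ) : ℝ) := by exact_mod_cast h4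
    push_cast at h5
    refine h5.trans ?_
    exact mul_le_mul_of_nonneg_left htle (Nat.cast_nonneg d)

theorem cube_le (r : ℕ) : r ^ 3 ≤ 4 * 2 ^ r := by
  rcases lt_or_ge r 4 with h | h
  · interval_cases r <;> norm_num
  · induction r, h using Nat.le_induction with
    | base => norm_num
    | succ r hr ih =>
      rw [pow_succ 2 r]
      nlinarith [sq_nonneg (r : ℤ), mul_le_mul hr hr (by norm_num) (by omega)]

theorem rN_le {d N : ℕ} (hd : 2 ≤ d) (hN : 1 ≤ Real.log N) :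
    (rN d N : ℝ) ≤ 4 * d * Real.log N := by
  have h1 := (rN_bd hd hN).2
  have hd2 : (2 : ℝ) ≤ d := by exact_mod_cast hd
  have h2 : ((rN d N ^ 3 : ℕ) : ℝ) ≤ ((4 * 2 ^ rN d N : ℕ) : ℝ) := by exact_mod_cast cube_le _
  push_cast at h2
  have h3 : (2 : ℝ) ^ rN d N ≤ (d : ℝ) ^ rN d N := pow_le_pow_left₀ (by norm_num) hd2 _
  have h4 : (rN d N : ℝ) ^ 3 ≤ (4 * d * Real.log N) ^ 3 := by
    calc (rN d N : ℝ) ^ 3 ≤ 4 * (d * (Real.log N) ^ 3) := by linarith
      _ ≤ 4 * 4 * 4 * (d * d * d * (Real.log N) ^ 3) := by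
          have h5 : (0 : ℝ) ≤ (Real.log N) ^ 3 := by positivity
          have h6 : (d : ℝ) ≤ d * d * d := by nlinarith [mul_nonneg (by linarith : (0:ℝ) ≤ d) (by nlinarith : (0:ℝ) ≤ d * d - 1)]
          have h7 : (d : ℝ) * (Real.log N) ^ 3 ≤ d * d * d * (Real.log N) ^ 3 :=
            mul_le_mul_of_nonneg_right h6 h5
          have h8 : 0 ≤ (d : ℝ) * d * d * (Real.log N) ^ 3 := by positivity
          linarith
      _ = (4 * d * Real.log N) ^ 3 := by ring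
  exact le_of_pow_le_pow_left₀ (by norm_num) (by positivity) h4

/-- the number of blocks -/
noncomputable def KN (d r' N : ℕ) : ℕ := ⌊((Real.log N) ^ 6 - 1) / ((rN d N + r' : ℕ) : ℝ)⌋₊

theorem big (d r' : ℕ) (hd : 2 ≤ d) : ∃ N0 : ℕ, 1 ≤ N0 ∧ ∀ N : ℕ, N0 ≤ N → 1 ≤ Real.log N ∧
    (1 - 1 / ((d ^ (rN d N + r') : ℕ) : ℝ)) ^ (KN d r' N) ≤ 1 / (N : ℝ) ^ 2 := by
  have hd2 : (2 : ℝ) ≤ d := by exact_mod_cast hd
  have hd0 : (0 : ℝ) < d := by linarith
  set D : ℝ := (d : ℝ) ^ (r' + 1) with hD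
  have hD1 : 1 ≤ D := one_le_pow₀ (by linarith)
  set X0 : ℝ := 30 * d * D + r' + 2 with hX0
  refine ⟨max 1 ⌈Real.exp X0⌉₊, le_max_left _ _, fun N hN => ?_⟩
  have hN1 : 1 ≤ N := (le_max_left _ _).trans hN
  have hN0 : (0 : ℝ) < N := by exact_mod_cast hN1
  set x : ℝ := Real.log N with hx
  have hxX : X0 ≤ x := by
    rw [hx, Real.le_log_iff_exp_le hN0]
    calc Real.exp X0 ≤ (⌈Real.exp X0⌉₊ : ℝ) := Nat.le_ceil _
      _ ≤ N := by exact_mod_cast (le_max_right _ _).trans hN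
  have hdD : 0 < d * D := by positivity
  have hr'0 : (0 : ℝ) ≤ r' := Nat.cast_nonneg _
  have hx1 : 1 ≤ x := by nlinarith
  have hxr : (r' : ℝ) ≤ x := by nlinarith
  have hx30 : 30 * (d * D) ≤ x := by nlinarith
  refine ⟨hx1, ?_⟩
  have hx0 : 0 < x := by linarith
  -- the length of the blocks
  set L : ℕ := rN d N + r' with hL
  have hL1 : (1 : ℝ) ≤ L := by
    have : 1 ≤ L := by rw [hL]; unfold rN; omega
    exact_mod_cast this
  have hL2 : (L : ℝ) ≤ 5 * d * x := by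
    have h1 := rN_le hd hx1
    rw [hL]
    push_cast
    nlinarith
  have hq1 : (1 : ℝ) ≤ (d : ℝ) ^ L := one_le_pow₀ (by linarith)
  have hq2 : (d : ℝ) ^ L ≤ D * x ^ 3 := by
    have h1 := (rN_bd hd hx1).2
    calc (d : ℝ) ^ L = (d : ℝ) ^ rN d N * (d : ℝ) ^ r' := by rw [hL, pow_add]
      _ ≤ (d * x ^ 3) * (d : ℝ) ^ r' := by gcongr
      _ = D * x ^ 3 := by rw [hD]; ring
  have hK : 2 * x * (d : ℝ) ^ L ≤ KN d r' N := by
    have h1 : (x ^ 6 - 1) / (L : ℝ) - 1 ≤ KN d r' N := by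
      have := Nat.lt_floor_add_one ((x ^ 6 - 1) / (L : ℝ))
      unfold KN
      linarith
    have hx6 : 0 ≤ x ^ 6 - 1 := by
      have : (1 : ℝ) ≤ x ^ 6 := one_le_pow₀ hx1
      linarith
    have h2 : (x ^ 6 - 1) / (5 * d * x) ≤ (x ^ 6 - 1) / (L : ℝ) :=
      div_le_div_of_nonneg_left hx6 (by linarith) hL2
    have h3 : 2 * D * x ^ 4 + 1 ≤ (x ^ 6 - 1) / (5 * d * x) := by
      rw [le_div_iff₀ (by positivity)]
      have h4 : 30 * (d * D) * x ^ 5 ≤ x ^ 6 := by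
        calc 30 * (d * D) * x ^ 5 ≤ x * x ^ 5 := by gcongr
          _ = x ^ 6 := by ring
      have h5 : x ≤ x ^ 5 := le_self_pow₀ hx1 (by norm_num)
      have h5' : 1 ≤ x ^ 5 := one_le_pow₀ hx1
      have h6 : (d : ℝ) ≤ d * D := le_mul_of_one_le_right hd0.le hD1
      have h7 : (d : ℝ) * x ≤ d * D * x ^ 5 := mul_le_mul h6 h5 hx0.le hdD.le
      have h8 : 1 ≤ (d : ℝ) * D * x ^ 5 := by
        calc (1 : ℝ) ≤ d * x := by nlinarith
          _ ≤ _ := h7
      have h9 : (2 * D * x ^ 4 + 1) * (5 * d * x) = 10 * (d * D * x ^ 5) + 5 * (d * x) := by ring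
      rw [h9]
      linarith
    have h10 : 2 * x * (d : ℝ) ^ L ≤ 2 * D * x ^ 4 := by
      calc 2 * x * (d : ℝ) ^ L ≤ 2 * x * (D * x ^ 3) := by gcongr
        _ = 2 * D * x ^ 4 := by ring
    linarith
  have hqc : ((d ^ L : ℕ) : ℝ) = (d : ℝ) ^ L := by push_cast; rfl
  rw [hqc]
  have hq0 : 0 < (d : ℝ) ^ L := by linarith
  have h0 : 0 ≤ 1 - 1 / (d : ℝ) ^ L := by
    rw [sub_nonneg, div_le_one hq0]
    exact hq1
  calc (1 - 1 / (d : ℝ) ^ L) ^ KN d r' N ≤ (Real.exp (-(1 / (d : ℝ) ^ L))) ^ KN d r' N :=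
        pow_le_pow_left₀ h0 (Real.one_sub_le_exp_neg _) _
    _ = Real.exp (-(KN d r' N / (d : ℝ) ^ L)) := by
        rw [← Real.exp_nat_mul]
        congr 1
        ring
    _ ≤ Real.exp (-(2 * x)) := by
        apply Real.exp_le_exp.mpr
        rw [neg_le_neg_iff, le_div_iff₀ hq0]
        exact hK
    _ = 1 / (N : ℝ) ^ 2 := by
        rw [Real.exp_neg, hx, two_mul, Real.exp_add, Real.exp_log hN0]
        field_simp

theorem bc_zero (d r' : ℕ) (hd : 2 ≤ d) : ∀ᵐ x : ℝ, x ∈ Ico (0 : ℝ) 1 →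
    ∀ᶠ N : ℕ in atTop, ∃ n : ℕ, N ≤ n ∧ (n : ℝ) ≤ N + Real.log N ^ 6 ∧ rN d N ≤ n ∧
      Int.fract ((d : ℝ) ^ (n - rN d N) * x) < 1 / (d : ℝ) ^ (rN d N + r') := by
  obtain ⟨N0, hN01, hN0⟩ := big d r' hd
  let s : ℕ → Set ℝ := fun N => {x | N0 ≤ N ∧ 0 ≤ x ∧ x < 1 ∧
    ((d ^ N : ℕ) : ℝ) * x ∈ PK (d ^ (rN d N + r')) (KN d r' N)}
  have hs : ∀ N, volume (s N) ≤ ENNReal.ofReal (1 / (N : ℝ) ^ 2) := by
    intro N
    rcases lt_or_ge N N0 with h | h
    · have : s N = ∅ := by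
        ext x
        simp only [s, mem_ofPred_eq, mem_empty_iff_false, iff_false, not_and]
        intro h1
        omega
      rw [this, measure_empty]
      exact zero_le
    · have hdN : 1 ≤ d ^ N := Nat.one_le_pow _ _ (by omega)
      have hq : 1 ≤ d ^ (rN d N + r') := Nat.one_le_pow _ _ (by omega)
      have hsub : s N ⊆ {x : ℝ | ((0 : ℕ) : ℝ) / (d ^ N : ℕ) ≤ x ∧ x < 1 ∧
          ((d ^ N : ℕ) : ℝ) * x ∈ PK (d ^ (rN d N + r')) (KN d r' N)} := by
        rintro x ⟨_, h1, h2, h3⟩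
        refine ⟨?_, h2, h3⟩
        rw [Nat.cast_zero, zero_div]
        exact h1
      calc volume (s N) ≤ _ := measure_mono hsub
        _ ≤ ENNReal.ofReal ((((d ^ N : ℕ) : ℝ) - (0 : ℕ)) / (d ^ N : ℕ)) *
            volume (PK (d ^ (rN d N + r')) (KN d r' N) ∩ Ico 0 1) :=
            per_vol (PK_per _ _) (d ^ N) 0 hdN (Nat.zero_le _)
        _ ≤ 1 * ENNReal.ofReal ((1 - 1 / ((d ^ (rN d N + r') : ℕ) : ℝ)) ^ (KN d r' N)) := by
            gcongr
            · rw [Nat.cast_zero, sub_zero, div_self (by exact_mod_cast (by omega : d ^ N ≠ 0)),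
                ENNReal.ofReal_one]
            · exact PK_vol _ hq _
        _ ≤ ENNReal.ofReal (1 / (N : ℝ) ^ 2) := by
            rw [one_mul]
            exact ENNReal.ofReal_le_ofReal (hN0 N h).2
  have hsum : (∑' j, volume (s j)) ≠ ∞ := by
    refine ne_top_of_le_ne_top ?_ (ENNReal.tsum_le_tsum hs)
    exact (Real.summable_one_div_nat_pow.mpr one_lt_two).tsum_ofReal_ne_top
  filter_upwards [ae_eventually_notMem hsum] with x hx hx01
  filter_upwards [hx, eventually_ge_atTop N0] with N hxN hN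
  have h1 : ¬ ((d ^ N : ℕ) : ℝ) * x ∈ PK (d ^ (rN d N + r')) (KN d r' N) := by
    intro h
    exact hxN ⟨hN, hx01.1, hx01.2, h⟩
  have h2 : ∃ j < KN d r' N, Int.fract (((d ^ (rN d N + r') : ℕ) : ℝ) ^ j *
      (((d ^ N : ℕ) : ℝ) * x)) < 1 / ((d ^ (rN d N + r') : ℕ) : ℝ) := by
    by_contra h
    push Not at h
    exact h1 h
  obtain ⟨j, hj, hfr⟩ := h2
  have hlog := (hN0 N hN).1
  refine ⟨N + j * (rN d N + r') + rN d N, by omega, ?_, by omega, ?_⟩
  · have hL0 : (0 : ℝ) < ((rN d N + r' : ℕ) : ℝ) := by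
      have : 0 < rN d N + r' := by unfold rN; omega
      exact_mod_cast this
    have hx6 : (1 : ℝ) ≤ (Real.log N) ^ 6 := one_le_pow₀ hlog
    have h3 : (KN d r' N : ℝ) ≤ ((Real.log N) ^ 6 - 1) / ((rN d N + r' : ℕ) : ℝ) :=
      Nat.floor_le (div_nonneg (by linarith) hL0.le)
    rw [le_div_iff₀ hL0] at h3
    have h4 : j * (rN d N + r') + rN d N ≤ KN d r' N * (rN d N + r') := by
      calc j * (rN d N + r') + rN d N ≤ (j + 1) * (rN d N + r') := by
            rw [Nat.succ_mul]; omega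
        _ ≤ KN d r' N * (rN d N + r') := Nat.mul_le_mul_right _ hj
    have h5 : ((j * (rN d N + r') + rN d N : ℕ) : ℝ) ≤
        ((KN d r' N * (rN d N + r') : ℕ) : ℝ) := by exact_mod_cast h4
    have h6 : ((N + j * (rN d N + r') + rN d N : ℕ) : ℝ) =
        N + ((j * (rN d N + r') + rN d N : ℕ) : ℝ) := by push_cast; ring
    rw [h6]
    have h7 : ((KN d r' N * (rN d N + r') : ℕ) : ℝ) =
        (KN d r' N : ℝ) * ((rN d N + r' : ℕ) : ℝ) := by push_cast; ring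
    rw [h7] at h5
    linarith
  · have h3 : N + j * (rN d N + r') + rN d N - rN d N = N + j * (rN d N + r') := by omega
    rw [h3]
    have h4 : (d : ℝ) ^ (N + j * (rN d N + r')) * x = ((d ^ (rN d N + r') : ℕ) : ℝ) ^ j *
        (((d ^ N : ℕ) : ℝ) * x) := by
      push_cast
      rw [pow_add, ← pow_mul, mul_comm j]
      ring
    rw [h4]
    have h5 : ((d ^ (rN d N + r') : ℕ) : ℝ) = (d : ℝ) ^ (rN d N + r') := by push_cast; rfl
    rw [← h5]
    exact hfr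

/-! ### the conclusion -/

/-- good angles -/
def GoodP (d : ℕ) (θ : ℝ) : Prop := ∀ a b : ℝ, 0 < a → (∀ m : ℤ, 4 * a < |θ - m|) →
  0 < b → ∀ᶠ N : ℕ in atTop, ∃ n : ℕ, N ≤ n ∧ (n : ℝ) ≤ N + Real.log N ^ 6 ∧
    (∃ k : ℤ, |(d : ℝ) ^ n * θ - k| < b) ∧
    ∀ k : ℕ, 1 ≤ k → k ≤ n → ∀ m : ℤ, 2 * a / (d : ℝ) ^ (n - k) < |(d : ℝ) ^ k * θ - θ - m|

theorem good_of {d : ℕ} (hd : 2 ≤ d) {x : ℝ}
    (hA : ∀ r' : ℕ, ∀ᶠ N : ℕ in atTop, ∃ n : ℕ, N ≤ n ∧ (n : ℝ) ≤ N + Real.log N ^ 6 ∧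
      rN d N ≤ n ∧ Int.fract ((d : ℝ) ^ (n - rN d N) * x) < 1 / (d : ℝ) ^ (rN d N + r'))
    (hB : ∃ c : ℝ, 0 < c ∧ ∀ j : ℕ, 1 ≤ j → ∀ m : ℤ, c / (j : ℝ) ^ 2 ≤ |(d : ℝ) ^ j * x - m|)
    (hC : ∃ c : ℝ, 0 < c ∧ ∀ k : ℕ, 1 ≤ k → ∀ m : ℤ,
      c / (k : ℝ) ^ 2 ≤ |(d : ℝ) ^ k * x - x - m|) : GoodP d x := by
  intro a b ha hθ hb
  have hd2 : (2 : ℝ) ≤ d := by exact_mod_cast hd
  have hd0 : (0 : ℝ) < d := by linarith
  have ha8 : a < 1 / 8 := by
    have h1 := hθ (round x)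
    have h2 := abs_sub_round x
    linarith
  obtain ⟨r', hr'⟩ := exists_pow_lt_of_lt_one (lt_min ha hb) (by
    rw [div_lt_one hd0]; linarith : 1 / (d : ℝ) < 1)
  rw [one_div_pow] at hr'
  have hra : 1 / (d : ℝ) ^ r' < a := hr'.trans_le (min_le_left _ _)
  have hrb : 1 / (d : ℝ) ^ r' < b := hr'.trans_le (min_le_right _ _)
  obtain ⟨cB, hcB, hB⟩ := hB
  obtain ⟨cC, hcC, hC⟩ := hC
  have hlogt : Tendsto (fun N : ℕ => Real.log (N : ℝ)) atTop atTop :=
    Real.tendsto_log_atTop.comp tendsto_natCast_atTop_atTop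
  have hlo : ∀ᶠ N : ℕ in atTop, Real.log (N : ℝ) ^ 6 ≤ N := by
    have h1 := (Real.isLittleO_pow_log_id_atTop (n := 6)).bound one_pos
    have h2 := tendsto_natCast_atTop_atTop.eventually h1
    filter_upwards [h2] with N hN
    rw [one_mul, Real.norm_eq_abs, Real.norm_eq_abs, id, Nat.abs_cast] at hN
    exact (le_abs_self _).trans hN
  filter_upwards [hA r', hlogt.eventually_ge_atTop 1, hlogt.eventually_gt_atTop (144 / cB),
    tendsto_natCast_atTop_atTop.eventually_gt_atTop (2 * a / cC), eventually_ge_atTop 2, hlo]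
    with N hAN hlog1 hlogB hNC hN2 hN6
  obtain ⟨n, hNn, hnN, hrn, hfr⟩ := hAN
  set r : ℕ := rN d N with hr
  have hrd := (rN_bd hd hlog1).1
  set z : ℤ := ⌊(d : ℝ) ^ (n - r) * x⌋ with hz
  set δ : ℝ := Int.fract ((d : ℝ) ^ (n - r) * x) with hδ
  have hδ0 : 0 ≤ δ := Int.fract_nonneg _
  have hzδ : (d : ℝ) ^ (n - r) * x = z + δ := (Int.floor_add_fract _).symm
  have hpr : 0 < (d : ℝ) ^ r := by positivity
  have hδr : (d : ℝ) ^ r * δ < 1 / (d : ℝ) ^ r' := by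
    rw [pow_add] at hfr
    calc (d : ℝ) ^ r * δ < (d : ℝ) ^ r * (1 / ((d : ℝ) ^ r * (d : ℝ) ^ r')) :=
          mul_lt_mul_of_pos_left hfr hpr
      _ = 1 / (d : ℝ) ^ r' := by field_simp
  refine ⟨n, hNn, hnN, ⟨(d : ℤ) ^ r * z, ?_⟩, fun k hk1 hkn m => ?_⟩
  · have h1 : (d : ℝ) ^ n * x - (((d : ℤ) ^ r * z : ℤ) : ℝ) = (d : ℝ) ^ r * δ := by
      have h2 : (d : ℝ) ^ n = (d : ℝ) ^ r * (d : ℝ) ^ (n - r) := by
        rw [← pow_add]; congr 1; omega
      rw [h2, mul_assoc, hzδ]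
      push_cast
      ring
    rw [h1, abs_of_nonneg (by positivity)]
    linarith
  · obtain ⟨i, hi⟩ : ∃ i, n = k + i := ⟨n - k, by omega⟩
    have hnk : n - k = i := by omega
    rw [hnk]
    have hpi : (1 : ℝ) ≤ (d : ℝ) ^ i := one_le_pow₀ (by linarith)
    rcases le_or_gt i r with hir | hir
    · -- the block of zeros
      have h2 : (d : ℝ) ^ k = (d : ℝ) ^ (r - i) * (d : ℝ) ^ (n - r) := by
        rw [← pow_add]; congr 1; omega
      have h3 : (d : ℝ) ^ (r - i) * δ ≤ (d : ℝ) ^ r * δ := by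
        apply mul_le_mul_of_nonneg_right _ hδ0
        exact pow_le_pow_right₀ (by linarith) (by omega)
      have h4 := hθ ((d : ℤ) ^ (r - i) * z - m)
      have h5 : x - (((d : ℤ) ^ (r - i) * z - m : ℤ) : ℝ) =
          -((d : ℝ) ^ k * x - x - m) + (d : ℝ) ^ (r - i) * δ := by
        rw [h2, mul_assoc, hzδ]
        push_cast
        ring
      have h6 : |x - (((d : ℤ) ^ (r - i) * z - m : ℤ) : ℝ)| ≤
          |(d : ℝ) ^ k * x - x - m| + (d : ℝ) ^ (r - i) * δ := by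
        rw [h5]
        refine (abs_add_le _ _).trans ?_
        rw [abs_neg, abs_of_nonneg (by positivity : 0 ≤ (d : ℝ) ^ (r - i) * δ)]
      have h7 : 2 * a / (d : ℝ) ^ i ≤ 2 * a := div_le_self (by linarith) hpi
      linarith
    · have hj1 : 1 ≤ i - r := by omega
      rcases lt_or_ge ((d : ℝ) ^ i) ((n : ℝ) ^ 3) with hc | hc
      · by_contra hle
        rw [not_lt] at hle
        set j : ℕ := i - r with hj
        have hnr : n - r = k + j := by omega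
        have hpj : 0 < (d : ℝ) ^ j := by positivity
        have hij : (d : ℝ) ^ i = (d : ℝ) ^ j * (d : ℝ) ^ r := by
          rw [← pow_add]; congr 1; omega
        have h1 : (d : ℝ) ^ j * x - ((z - (d : ℤ) ^ j * m : ℤ) : ℝ) =
            δ - (d : ℝ) ^ j * ((d : ℝ) ^ k * x - x - m) := by
          have h2 : (d : ℝ) ^ j * ((d : ℝ) ^ k * x) = z + δ := by
            rw [← hzδ, hnr, pow_add]
            ring
          rw [mul_sub, mul_sub, h2]
          push_cast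
          ring
        have h2 := hB j hj1 (z - (d : ℤ) ^ j * m)
        rw [h1] at h2
        have h3 : |δ - (d : ℝ) ^ j * ((d : ℝ) ^ k * x - x - m)| ≤
            δ + (d : ℝ) ^ j * (2 * a / (d : ℝ) ^ i) := by
          refine (abs_sub _ _).trans ?_
          rw [abs_of_nonneg hδ0, abs_mul, abs_of_pos hpj]
          gcongr
        have h4 : (d : ℝ) ^ j * (2 * a / (d : ℝ) ^ i) = 2 * a / (d : ℝ) ^ r := by
          rw [hij]
          field_simp
        have h5 : δ < a / (d : ℝ) ^ r := by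
          rw [lt_div_iff₀ hpr]
          linarith
        have h6 : cB / (j : ℝ) ^ 2 < 1 / (d : ℝ) ^ r := by
          have h7 : a / (d : ℝ) ^ r + 2 * a / (d : ℝ) ^ r = 3 * a / (d : ℝ) ^ r := by ring
          have h8 : 3 * a / (d : ℝ) ^ r < 1 / (d : ℝ) ^ r := by
            apply div_lt_div_of_pos_right _ hpr
            linarith
          rw [h4] at h3
          linarith
        have hjr : (1 : ℝ) ≤ j := by exact_mod_cast hj1
        rw [div_lt_div_iff₀ (by positivity) hpr, one_mul] at h6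
        -- the size of i
        have hi12 : (i : ℝ) ≤ 12 * Real.log N := by
          have hn0 : (0 : ℝ) < n := by
            have : 0 < n := by omega
            exact_mod_cast this
          have hN0 : (0 : ℝ) < N := by
            have : 0 < N := by omega
            exact_mod_cast this
          have h9 : (i : ℝ) * Real.log 2 ≤ 3 * Real.log n := by
            have h10 : (2 : ℝ) ^ i ≤ (n : ℝ) ^ 3 :=
              (pow_le_pow_left₀ (by norm_num) hd2 i).trans hc.le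
            have h11 := Real.log_le_log (by positivity) h10
            rw [Real.log_pow, Real.log_pow] at h11
            exact_mod_cast h11
          have h12 : (n : ℝ) ≤ (N : ℝ) ^ 2 := by
            have : (2 : ℝ) ≤ N := by exact_mod_cast hN2
            nlinarith
          have h13 : Real.log n ≤ 2 * Real.log N := by
            have := Real.log_le_log hn0 h12
            rw [Real.log_pow] at this
            exact_mod_cast this
          have h14 : (1 : ℝ) / 2 ≤ Real.log 2 := by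
            have := Real.log_two_gt_d9
            linarith
          have h15 : (i : ℝ) * (1 / 2) ≤ (i : ℝ) * Real.log 2 :=
            mul_le_mul_of_nonneg_left h14 (Nat.cast_nonneg i)
          linarith
        have hji : (j : ℝ) ≤ i := by
          have : j ≤ i := by omega
          exact_mod_cast this
        have hj2 : (j : ℝ) ^ 2 ≤ 144 * (Real.log N) ^ 2 := by
          calc (j : ℝ) ^ 2 ≤ (12 * Real.log N) ^ 2 :=
                pow_le_pow_left₀ (by linarith) (hji.trans hi12) 2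
            _ = 144 * (Real.log N) ^ 2 := by ring
        have h16 : cB * (Real.log N) ^ 3 < 144 * (Real.log N) ^ 2 := by
          calc cB * (Real.log N) ^ 3 ≤ cB * (d : ℝ) ^ r := by gcongr
            _ < (j : ℝ) ^ 2 := h6
            _ ≤ _ := hj2
        rw [div_lt_iff₀ hcB] at hlogB
        have h17 : 0 < (Real.log N) ^ 2 := by positivity
        have h18 := mul_lt_mul_of_pos_right hlogB h17
        have h19 : Real.log N * cB * (Real.log N) ^ 2 = cB * (Real.log N) ^ 3 := by ring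
        linarith
      · have hn0 : (0 : ℝ) < n := by
          have : 0 < n := by omega
          exact_mod_cast this
        have hk0 : (0 : ℝ) < k := by exact_mod_cast hk1
        have hkn' : (k : ℝ) ≤ n := by exact_mod_cast hkn
        have hNn' : (N : ℝ) ≤ n := by exact_mod_cast hNn
        have h1 := hC k hk1 m
        rw [div_lt_iff₀ hcC] at hNC
        calc 2 * a / (d : ℝ) ^ i ≤ 2 * a / (n : ℝ) ^ 3 := by gcongr
          _ < cC / (n : ℝ) ^ 2 := by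
              rw [div_lt_div_iff₀ (by positivity) (by positivity)]
              have h2 : 2 * a < n * cC := by nlinarith
              have h3 : 0 < (n : ℝ) ^ 2 := by positivity
              calc 2 * a * (n : ℝ) ^ 2 < n * cC * (n : ℝ) ^ 2 := by gcongr
                _ = cC * (n : ℝ) ^ 3 := by ring
          _ ≤ cC / (k : ℝ) ^ 2 := by gcongr
          _ ≤ _ := h1

theorem good_fract {d : ℕ} {θ : ℝ} (h : GoodP d (Int.fract θ)) : GoodP d θ := by
  intro a b ha hθ hb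
  have hf : θ = Int.fract θ + ⌊θ⌋ := by rw [add_comm]; exact (Int.floor_add_fract θ).symm
  have h1 : ∀ m : ℤ, 4 * a < |Int.fract θ - m| := by
    intro m
    have h2 := hθ (m + ⌊θ⌋)
    have h3 : θ - ((m + ⌊θ⌋ : ℤ) : ℝ) = Int.fract θ - m := by
      push_cast
      linarith
    rwa [h3] at h2
  filter_upwards [h a b ha h1 hb] with N hN
  obtain ⟨n, hn1, hn2, ⟨k, hk⟩, hn3⟩ := hN
  refine ⟨n, hn1, hn2, ⟨k + (d : ℤ) ^ n * ⌊θ⌋, ?_⟩, fun k hk1 hkn m => ?_⟩
  · have h2 : (d : ℝ) ^ n * θ - ((k + (d : ℤ) ^ n * ⌊θ⌋ : ℤ) : ℝ) =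
        (d : ℝ) ^ n * Int.fract θ - k := by
      have h4 : Int.fract θ = θ - ⌊θ⌋ := rfl
      rw [h4]
      push_cast
      ring
    rwa [h2]
  · have h2 := hn3 k hk1 hkn (m - ((d : ℤ) ^ k - 1) * ⌊θ⌋)
    have h3 : (d : ℝ) ^ k * Int.fract θ - Int.fract θ -
        ((m - ((d : ℤ) ^ k - 1) * ⌊θ⌋ : ℤ) : ℝ) = (d : ℝ) ^ k * θ - θ - m := by
      have h4 : Int.fract θ = θ - ⌊θ⌋ := rfl
      rw [h4]
      push_cast
      ring
    rwa [h3] at h2

theorem t : Pool.Agent.Y272.LC.St_Good := by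
  intro d hd
  have hA : ∀ᵐ x : ℝ, ∀ r' : ℕ, x ∈ Ico (0 : ℝ) 1 →
    ∀ᶠ N : ℕ in atTop, ∃ n : ℕ, N ≤ n ∧ (n : ℝ) ≤ N + Real.log N ^ 6 ∧ rN d N ≤ n ∧
      Int.fract ((d : ℝ) ^ (n - rN d N) * x) < 1 / (d : ℝ) ^ (rN d N + r') :=
    ae_all_iff.mpr fun r' => bc_zero d r' hd
  have hB := bc_dist (fun j => d ^ j) (fun j _ => Nat.one_le_pow _ _ (by omega))
  have hC := bc_dist (fun k => d ^ k - 1) (fun k hk => by
    have h1 : 2 ^ 1 ≤ d ^ k := (Nat.pow_le_pow_left hd 1).trans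
      (Nat.pow_le_pow_right (by omega) hk)
    omega)
  have key : ∀ᵐ x : ℝ, x ∈ Ico (0 : ℝ) 1 → GoodP d x := by
    filter_upwards [hA, hB, hC] with x hxA hxB hxC hx
    refine good_of hd (fun r' => hxA r' hx) ?_ ?_
    · obtain ⟨c, hc, h⟩ := hxB hx
      refine ⟨c, hc, fun j hj m => ?_⟩
      have := h j hj m
      push_cast at this
      exact this
    · obtain ⟨c, hc, h⟩ := hxC hx
      refine ⟨c, hc, fun k hk m => ?_⟩
      have h1 := h k hk m
      have h2 : ((d ^ k - 1 : ℕ) : ℝ) * x - m = (d : ℝ) ^ k * x - x - m := by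
        rw [Nat.cast_sub (Nat.one_le_pow _ _ (by omega))]
        push_cast
        ring
      rwa [h2] at h1
  have hfr : ∀ᵐ θ : ℝ, GoodP d (Int.fract θ) := by
    rw [ae_iff] at key ⊢
    set Z : Set ℝ := {x | ¬ (x ∈ Ico (0 : ℝ) 1 → GoodP d x)} with hZ
    have hsub : {θ : ℝ | ¬ GoodP d (Int.fract θ)} ⊆
        ⋃ m : ℤ, (fun θ : ℝ => θ + (-(m : ℝ))) ⁻¹' Z := by
      intro θ hθ
      rw [mem_iUnion]
      refine ⟨⌊θ⌋, ?_⟩
      show ¬ (θ + (-(⌊θ⌋ : ℝ)) ∈ Ico (0 : ℝ) 1 → GoodP d (θ + (-(⌊θ⌋ : ℝ))))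
      have h1 : θ + (-(⌊θ⌋ : ℝ)) = Int.fract θ := by
        rw [← sub_eq_add_neg]
        rfl
      rw [h1]
      intro h2
      exact hθ (h2 ⟨Int.fract_nonneg θ, Int.fract_lt_one θ⟩)
    refine measure_mono_null hsub (measure_iUnion_null fun m => ?_)
    rw [measure_preimage_add_right]
    exact key
  filter_upwards [hfr] with θ hθ
  exact good_fract hθ

end Pool.Agent.Y488.LC.Good
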