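import Pool.Agent.Y272.LC.Stm

set_option autoImplicit false

/-! # A two constants theorem (propagation of smallness) -/

namespace Pool.Agent.Y488.LC.Vit

open Complex Filter Topology Metric Set
open Complex.HadamardThreeLines

/-- three circles -/
theorem three {f : ℂ → ℂ} {z : ℂ} {δ ρ P M ε : ℝ} (hδ : 0 < δ) (hδρ : δ < ρ) (hρP : ρ < P)
    (hf : DifferentiableOn ℂ f (ball z P)) (hM : ∀ y ∈ ball z P, ‖f y‖ ≤ M)
    (hε : ∀ y ∈ closedBall z δ, ‖f y‖ ≤ ε) {y : ℂ} (h1 : δ ≤ ‖y - z‖) (h2 : ‖y - z‖ ≤ ρ) :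
    ‖f y‖ ≤ ε ^ (1 - (Real.log ‖y - z‖ - Real.log δ) / (Real.log ρ - Real.log δ)) *
      M ^ ((Real.log ‖y - z‖ - Real.log δ) / (Real.log ρ - Real.log δ)) := by
  have hρ : 0 < ρ := hδ.trans hδρ
  have hl : Real.log δ < Real.log ρ := Real.log_lt_log hδ hδρ
  set F : ℂ → ℂ := fun s => f (z + Complex.exp s) with hF
  have hmem : ∀ s : ℂ, s.re ≤ Real.log ρ → z + Complex.exp s ∈ closedBall z ρ := by
    intro s hs
    rw [mem_closedBall, dist_eq_norm, add_sub_cancel_left, Complex.norm_exp]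
    calc Real.exp s.re ≤ Real.exp (Real.log ρ) := Real.exp_le_exp.mpr hs
      _ = ρ := Real.exp_log hρ
  have hsub : closedBall z ρ ⊆ ball z P := closedBall_subset_ball hρP
  have hd : DiffContOnCl ℂ F (verticalStrip (Real.log δ) (Real.log ρ)) := by
    apply DifferentiableOn.diffContOnCl
    have hcl : closure (verticalStrip (Real.log δ) (Real.log ρ)) ⊆
        verticalClosedStrip (Real.log δ) (Real.log ρ) :=
      closure_minimal (preimage_mono Ioo_subset_Icc_self)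
        (isClosed_Icc.preimage Complex.continuous_re)
    intro s hs
    have hs' := hcl hs
    have h3 : z + Complex.exp s ∈ ball z P := hsub (hmem s hs'.2)
    have h4 : DifferentiableAt ℂ f (z + Complex.exp s) :=
      hf.differentiableAt (isOpen_ball.mem_nhds h3)
    have h5 : DifferentiableAt ℂ (fun s : ℂ => z + Complex.exp s) s := by fun_prop
    exact (h4.comp s h5).differentiableWithinAt
  have hB : BddAbove ((norm ∘ F) '' verticalClosedStrip (Real.log δ) (Real.log ρ)) := by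
    refine ⟨M, ?_⟩
    rintro _ ⟨s, hs, rfl⟩
    exact hM _ (hsub (hmem s hs.2))
  have ha : ∀ s ∈ re ⁻¹' {Real.log δ}, ‖F s‖ ≤ ε := by
    intro s hs
    apply hε
    have hs' : s.re = Real.log δ := hs
    rw [mem_closedBall, dist_eq_norm, add_sub_cancel_left, Complex.norm_exp, hs',
      Real.exp_log hδ]
  have hb : ∀ s ∈ re ⁻¹' {Real.log ρ}, ‖F s‖ ≤ M := by
    intro s hs
    have hs' : s.re = Real.log ρ := hs
    exact hM _ (hsub (hmem s hs'.le))
  have hy0 : y - z ≠ 0 := by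
    intro h0
    rw [h0, norm_zero] at h1
    linarith
  have hyp : 0 < ‖y - z‖ := norm_pos_iff.mpr hy0
  have hre : (Complex.log (y - z)).re = Real.log ‖y - z‖ := Complex.log_re _
  have hmemy : Complex.log (y - z) ∈ verticalClosedStrip (Real.log δ) (Real.log ρ) := by
    show (Complex.log (y - z)).re ∈ Icc (Real.log δ) (Real.log ρ)
    rw [hre]
    exact ⟨Real.log_le_log hδ h1, Real.log_le_log hyp h2⟩
  have h := norm_le_interp_of_mem_verticalClosedStrip' hl hmemy hd hB ha hb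
  rw [hre] at h
  have hFy : F (Complex.log (y - z)) = f y := by
    show f (z + Complex.exp (Complex.log (y - z))) = f y
    rw [Complex.exp_log hy0, add_sub_cancel]
  rwa [hFy] at h

/-- one step -/
theorem step {δ ρ M η : ℝ} (hδ : 0 < δ) (hδρ : δ ≤ ρ) (hM : 1 ≤ M) (hη : 0 < η) :
    ∃ ε : ℝ, 0 < ε ∧ ∀ (f : ℂ → ℂ) (z : ℂ), DifferentiableOn ℂ f (ball z (3 * ρ)) →
      (∀ y ∈ ball z (3 * ρ), ‖f y‖ ≤ M) → (∀ y ∈ closedBall z δ, ‖f y‖ ≤ ε) →
      ∀ y ∈ ball z (2 * ρ), ‖f y‖ ≤ η := by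
  have hρ : 0 < ρ := hδ.trans_le hδρ
  set T : ℝ := (Real.log (2 * ρ) - Real.log δ) / (Real.log (5 / 2 * ρ) - Real.log δ) with hT
  have hl1 : Real.log δ < Real.log (2 * ρ) := Real.log_lt_log hδ (by linarith)
  have hl2 : Real.log (2 * ρ) < Real.log (5 / 2 * ρ) := Real.log_lt_log (by linarith) (by linarith)
  have hden : 0 < Real.log (5 / 2 * ρ) - Real.log δ := by linarith
  have hT1 : T < 1 := by
    rw [hT, div_lt_one hden]
    linarith
  have h1T : 0 < 1 - T := by linarith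
  set η' : ℝ := min 1 (η / M) with hη'
  have hM0 : 0 < M := by linarith
  have hη'p : 0 < η' := lt_min one_pos (by positivity)
  refine ⟨min η (min 1 (η' ^ (1 / (1 - T)))), lt_min hη (lt_min one_pos (by positivity)),
    fun f z hf hfM hfε y hy => ?_⟩
  set ε : ℝ := min η (min 1 (η' ^ (1 / (1 - T)))) with hε
  have hεp : 0 < ε := lt_min hη (lt_min one_pos (by positivity))
  have hε1 : ε ≤ 1 := (min_le_right _ _).trans (min_le_left _ _)
  have hε2 : ε ≤ η' ^ (1 / (1 - T)) := (min_le_right _ _).trans (min_le_right _ _)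
  rcases le_or_gt ‖y - z‖ δ with h | h
  · refine (hfε y ?_).trans (min_le_left _ _)
    rw [mem_closedBall, dist_eq_norm]
    exact h
  · have hy2 : ‖y - z‖ < 2 * ρ := by
      rw [mem_ball, dist_eq_norm] at hy
      exact hy
    have h3 := three hδ (by linarith : δ < 5 / 2 * ρ) (by linarith : 5 / 2 * ρ < 3 * ρ) hf hfM hfε
      h.le (by linarith : ‖y - z‖ ≤ 5 / 2 * ρ)
    set t : ℝ := (Real.log ‖y - z‖ - Real.log δ) / (Real.log (5 / 2 * ρ) - Real.log δ) with ht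
    have ht0 : 0 ≤ t := div_nonneg (by
      have := Real.log_le_log hδ h.le
      linarith) hden.le
    have htT : t ≤ T := by
      rw [ht, hT]
      apply div_le_div_of_nonneg_right _ hden.le
      have := Real.log_le_log (hδ.trans h) hy2.le
      linarith
    have h4 : ε ^ (1 - t) ≤ ε ^ (1 - T) :=
      Real.rpow_le_rpow_of_exponent_ge hεp hε1 (by linarith)
    have h5 : ε ^ (1 - T) ≤ η' := by
      calc ε ^ (1 - T) ≤ (η' ^ (1 / (1 - T))) ^ (1 - T) :=
            Real.rpow_le_rpow hεp.le hε2 h1T.le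
        _ = η' := by
            rw [← Real.rpow_mul hη'p.le, one_div_mul_cancel h1T.ne', Real.rpow_one]
    have h6 : M ^ t ≤ M := by
      calc M ^ t ≤ M ^ (1 : ℝ) := Real.rpow_le_rpow_of_exponent_le hM (by linarith)
        _ = M := Real.rpow_one M
    calc ‖f y‖ ≤ ε ^ (1 - t) * M ^ t := h3
      _ ≤ η' * M := mul_le_mul (h4.trans h5) h6 (by positivity) hη'p.le
      _ ≤ η / M * M := mul_le_mul_of_nonneg_right (min_le_right _ _) hM0.le
      _ = η := div_mul_cancel₀ η hM0.ne'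

theorem t : Pool.Agent.Y272.LC.St_Vit := by
  intro U X z0 r R η hU hconn hX hXU hr hball hR hη
  let Adm : ℝ → (ℂ → ℂ) → ℂ → Prop := fun ε h w => DifferentiableOn ℂ h U ∧
    (∀ z ∈ U, ‖h z‖ ≤ R) ∧ ∀ z ∈ ball z0 r, ‖h z - w‖ ≤ ε
  have hmono : ∀ {ε ε' : ℝ} {h : ℂ → ℂ} {w : ℂ}, ε ≤ ε' → Adm ε h w → Adm ε' h w := by
    intro ε ε' h w hε ⟨h1, h2, h3⟩
    exact ⟨h1, h2, fun z hz => (h3 z hz).trans hε⟩
  let G : Set ℂ := {z | ∃ δ : ℝ, 0 < δ ∧ ball z δ ⊆ U ∧ ∀ η : ℝ, 0 < η → ∃ ε : ℝ, 0 < ε ∧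
    ∀ h w, Adm ε h w → ∀ y ∈ ball z δ, ‖h y - w‖ ≤ η}
  have hz0 : z0 ∈ U := hball (mem_ball_self hr)
  have hz0G : z0 ∈ G := ⟨r, hr, hball, fun η hη => ⟨η, hη, fun h w hA => hA.2.2⟩⟩
  have hGo : IsOpen G := by
    rw [Metric.isOpen_iff]
    rintro z ⟨δ, hδ, hδU, hG⟩
    refine ⟨δ / 2, by positivity, fun y hy => ?_⟩
    have hsub : ball y (δ / 2) ⊆ ball z δ := by
      apply ball_subset_ball'
      rw [mem_ball] at hy
      linarith
    refine ⟨δ / 2, by positivity, hsub.trans hδU, fun η hη => ?_⟩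
    obtain ⟨ε, hε, h1⟩ := hG η hη
    exact ⟨ε, hε, fun h w hA x hx => h1 h w hA x (hsub hx)⟩
  have hUG : U ⊆ G := by
    refine hconn.subset_of_closure_inter_subset hGo ⟨z0, hz0, hz0G⟩ ?_
    rintro y ⟨hyc, hyU⟩
    obtain ⟨q, hq, hqU⟩ := Metric.isOpen_iff.mp hU y hyU
    set ρ : ℝ := q / 4 with hρ
    have hρp : 0 < ρ := by positivity
    obtain ⟨z, ⟨δ, hδ, hδU, hG⟩, hyz⟩ := Metric.mem_closure_iff.mp hyc ρ hρp
    have hzsub : ball z (3 * ρ) ⊆ U := by
      refine (ball_subset_ball' ?_).trans hqU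
      rw [dist_comm] at hyz
      linarith
    have hysub : ball y ρ ⊆ ball z (2 * ρ) := by
      apply ball_subset_ball'
      linarith
    refine ⟨ρ, hρp, (ball_subset_ball (by linarith)).trans hqU, fun η hη => ?_⟩
    obtain ⟨ε1, hε1, h1⟩ := step (δ := min (δ / 2) ρ) (ρ := ρ) (M := 2 * R + 1)
      (lt_min (by positivity) hρp) (min_le_right _ _) (by linarith) hη
    obtain ⟨ε2, hε2, h2⟩ := hG ε1 hε1
    refine ⟨min ε2 1, lt_min hε2 one_pos, fun h w hA x hx => ?_⟩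
    have hw : ‖w‖ ≤ R + 1 := by
      have h3 := hA.2.2 z0 (mem_ball_self hr)
      have h4 := hA.2.1 z0 hz0
      have h5 : ‖w‖ ≤ ‖h z0‖ + ‖h z0 - w‖ := by
        have := norm_sub_norm_le w (h z0)
        rw [norm_sub_rev] at this
        linarith
      have h6 : min ε2 1 ≤ 1 := min_le_right _ _
      linarith
    refine h1 (fun y => h y - w) z ?_ ?_ ?_ x (hysub hx)
    · exact (hA.1.mono hzsub).sub_const w
    · intro y hy
      have h3 := hA.2.1 y (hzsub hy)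
      have h4 := norm_sub_le (h y) w
      linarith
    · intro y hy
      apply h2 h w (hmono (min_le_left _ _) hA)
      rw [mem_closedBall] at hy
      rw [mem_ball]
      have : min (δ / 2) ρ ≤ δ / 2 := min_le_left _ _
      linarith
  have key : ∃ ε : ℝ, 0 < ε ∧ ∀ h w, Adm ε h w → ∀ z ∈ X, ‖h z - w‖ ≤ η := by
    refine hX.induction_on (p := fun S => ∃ ε : ℝ, 0 < ε ∧ ∀ h w, Adm ε h w →
      ∀ z ∈ S, ‖h z - w‖ ≤ η) ?_ ?_ ?_ ?_
    · exact ⟨1, one_pos, fun h w _ z hz => absurd hz (notMem_empty z)⟩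
    · rintro s t hst ⟨ε, hε, h1⟩
      exact ⟨ε, hε, fun h w hA z hz => h1 h w hA z (hst hz)⟩
    · rintro s t ⟨ε, hε, h1⟩ ⟨ε', hε', h1'⟩
      refine ⟨min ε ε', lt_min hε hε', fun h w hA z hz => ?_⟩
      rcases hz with hz | hz
      · exact h1 h w (hmono (min_le_left _ _) hA) z hz
      · exact h1' h w (hmono (min_le_right _ _) hA) z hz
    · intro x hx
      obtain ⟨δ, hδ, _, hG⟩ := hUG (hXU hx)
      obtain ⟨ε, hε, h1⟩ := hG η hη
      exact ⟨ball x δ, mem_nhdsWithin_of_mem_nhds (ball_mem_nhds x hδ), ε, hε, h1⟩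
  obtain ⟨ε, hε, h1⟩ := key
  exact ⟨ε, hε, fun h w hd hb hs z hz => h1 h w ⟨hd, hb, hs⟩ z hz⟩

end Pool.Agent.Y488.LC.Vit
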